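import Mathlib
import Pool.Agent.Helper26.AL.GoalsA

/-!
Project AL, packet FDC (exact 2-core decomposition).
-/

namespace Pool.Agent.Helper47.AL

open Finset Pool.Agent.Helper26.AF Pool.Agent.Helper26.AL Pool.Agent.Helper16.AF

/-- PACKET FDC. -/
theorem goalFDC (hFDA : Pool.Agent.Helper26.AL.StmtFDA) (hFDB : Pool.Agent.Helper26.AL.StmtFDB)
    (hFOR : Pool.Agent.Helper26.AF.StmtFOR) : Pool.Agent.Helper26.AL.StmtFDC := by
  intro o k r _
  rcases Nat.eq_zero_or_pos k with rfl | hk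
  · simp
  classical
  let T : (s : ℕ) → SimpleGraph (Fin s) → Prop := fun s Γ =>
    (∀ v, 2 ≤ dg Γ v) ∧ CXG Γ ∧ ne Γ = s + r ∧ EO o Γ
  have hF : ∀ S : Finset (Fin k),
      Nat.card {f : Fin k → Fin k // IsFor S f} * k = #S * k ^ (k - #S) := by
    intro S
    rcases S.eq_empty_or_nonempty with rfl | hS
    · have : IsEmpty {f : Fin k → Fin k // IsFor ∅ f} := by
        refine ⟨?_⟩
        rintro ⟨f, hf⟩
        obtain ⟨i, hi⟩ := hf.2 ⟨0, hk⟩
        simp at hi
      simp
    · exact hFOR k S hS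
  have hEO : ∀ (S : Finset (Fin k)) (Γ : SimpleGraph (Fin #S)) (f : Fin k → Fin k), IsFor S f →
      (EO o (gr S Γ f) ↔ EO o Γ) := by
    intro S Γ f hf
    constructor
    · intro h g hg
      exact ((hFDB k S Γ f hf).2 g).1 (h g hg)
    · intro h g hg
      exact ((hFDB k S Γ f hf).2 g).2 (h g hg)
  have hcard : Nat.card (Σ S : Finset (Fin k),
      {Γ : SimpleGraph (Fin #S) // T #S Γ} × {f : Fin k → Fin k // IsFor S f}) =
      Nat.card {G : SimpleGraph (Fin k) // CXG G ∧ ne G = k + r ∧ EO o G} := by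
    refine Nat.card_eq_of_bijective (fun q => ⟨gr q.1 q.2.1.1 q.2.2.1, ?_, ?_, ?_⟩) ⟨?_, ?_⟩
    · exact (hFDB _ _ _ _ q.2.2.2).1.2 q.2.1.2.2.1
    · rw [gr_ne q.2.2.2, q.2.1.2.2.2.1]
      have : #q.1 ≤ k := by simpa using Finset.card_le_univ q.1
      omega
    · exact (hEO _ _ _ q.2.2.2).2 q.2.1.2.2.2.2
    · rintro ⟨S, ⟨Γ, hΓ⟩, ⟨f, hf⟩⟩ ⟨S', ⟨Γ', hΓ'⟩, ⟨f', hf'⟩⟩ hqq
      have he : gr S Γ f = gr S' Γ' f' := congrArg Subtype.val hqq
      have hSS : S = S' := Finset.Subset.antisymm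
        (sub_of_eq hf' hf hΓ.1 he.symm) (sub_of_eq hf hf' hΓ'.1 he)
      subst hSS
      have hΓΓ : Γ = Γ' := by
        rw [← gr_comap (Γ := Γ) hf, he, gr_comap hf']
      subst hΓΓ
      have hff : f = f' := funext fun x => f_eq hf hf' he _ x le_rfl
      subst hff
      rfl
    · rintro ⟨G, hG1, hG2, hG3⟩
      obtain ⟨S, f, hf, hd, hG⟩ := hFDA k G hG1
      have h1 : CXG (gi G S) := by
        have h := (hFDB k S (gi G S) f hf).1
        rw [← hG] at h
        exact h.1 hG1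
      have h2 : ne (gi G S) = #S + r := by
        have h := gr_ne (Γ := gi G S) hf
        rw [← hG, hG2] at h
        have : #S ≤ k := by simpa using Finset.card_le_univ S
        omega
      have h3 : EO o (gi G S) := by
        have h := hEO S (gi G S) f hf
        rw [← hG] at h
        exact h.1 hG3
      exact ⟨⟨S, ⟨gi G S, hd, h1, h2, h3⟩, ⟨f, hf⟩⟩, Subtype.ext hG.symm⟩
  have hsum : Nat.card (Σ S : Finset (Fin k),
      {Γ : SimpleGraph (Fin #S) // T #S Γ} × {f : Fin k → Fin k // IsFor S f}) * k =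
      ∑ s ∈ range (k + 1), k.choose s *
        (Nat.card {Γ : SimpleGraph (Fin s) // T s Γ} * (s * k ^ (k - s))) := by
    rw [Nat.card_sigma, Finset.sum_mul]
    have h1 := Finset.sum_powerset_apply_card (x := (univ : Finset (Fin k)))
      (fun s => Nat.card {Γ : SimpleGraph (Fin s) // T s Γ} * (s * k ^ (k - s)))
    rw [Finset.powerset_univ, Finset.card_univ, Fintype.card_fin] at h1
    simp only [smul_eq_mul] at h1
    rw [← h1]
    refine Finset.sum_congr rfl fun S _ => ?_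
    rw [Nat.card_prod, mul_assoc, hF S]
  have hsum2 : ∑ s ∈ Icc 1 k, k.choose s * Nat.card {Γ : SimpleGraph (Fin s) // T s Γ} *
      (s * k ^ (k - s)) = ∑ s ∈ range (k + 1), k.choose s *
        (Nat.card {Γ : SimpleGraph (Fin s) // T s Γ} * (s * k ^ (k - s))) := by
    have hsub : Icc 1 k ⊆ range (k + 1) := by
      intro s hs
      rw [mem_Icc] at hs
      rw [mem_range]; omega
    rw [← Finset.sum_subset hsub]
    · exact Finset.sum_congr rfl fun s _ => by ring
    · intro s hs hs'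
      rw [mem_range] at hs
      rw [mem_Icc] at hs'
      have : s = 0 := by omega
      subst this
      simp
  change Nat.card {G : SimpleGraph (Fin k) // CXG G ∧ ne G = k + r ∧ EO o G} * k = _
  rw [← hcard, hsum, ← hsum2]
  rfl

end Pool.Agent.Helper47.AL
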