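import Mathlib
import Pool.Agent.Helper26.AL.GoalsA
import Pool.Agent.Helper26.AL.GoalsC
import Pool.Agent.Helper26.AF.Goals3
import Pool.Agent.Helper26.AF.Base
import Pool.Agent.Helper69.AF.UPP

/-!
Project AL, packet LIP (the limit exists).
-/

namespace Pool.Agent.Helper47.AL

open Finset Filter Topology Pool.Agent.Helper26.AF Pool.Agent.Helper26.AL

lemma Pr_sub_le {V : Type} [Fintype V] [DecidableEq V] {p : ℝ} (h0 : 0 ≤ p) (h1 : p ≤ 1)
    (P Q E : SimpleGraph V → Prop) (h : ∀ G, ¬ E G → (P G ↔ Q G)) :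
    |Pr p P - Pr p Q| ≤ Pr p E := by
  have h2 : Pr p P ≤ Pr p Q + Pr p E := by
    refine le_trans (Pr_mono h0 h1 (Q := fun G => Q G ∨ E G) fun G hG => ?_) (Pr_or_le h0 h1 Q E)
    by_cases hE : E G
    · exact Or.inr hE
    · exact Or.inl ((h G hE).1 hG)
  have h3 : Pr p Q ≤ Pr p P + Pr p E := by
    refine le_trans (Pr_mono h0 h1 (Q := fun G => P G ∨ E G) fun G hG => ?_) (Pr_or_le h0 h1 P E)
    by_cases hE : E G
    · exact Or.inr hE
    · exact Or.inl ((h G hE).2 hG)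
  rw [abs_le]
  constructor <;> linarith

lemma pow_aux : ∀ e : ℕ, 1 ≤ e → 1 + 2 * ((11 : ℝ) / 10) ^ e ≤ ((19 : ℝ) / 10) ^ (e + 1) := by
  intro e he
  have h1 : ∀ e : ℕ, 3 * ((11 : ℝ) / 10) ^ (e + 1) ≤ ((19 : ℝ) / 10) ^ (e + 2) := by
    intro e
    induction e with
    | zero => norm_num
    | succ e ih =>
      rw [pow_succ ((11 : ℝ) / 10) (e + 1), pow_succ ((19 : ℝ) / 10) (e + 2)]
      have h2 : (0 : ℝ) < ((11 : ℝ) / 10) ^ (e + 1) := by positivity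
      have h3 : (0 : ℝ) < ((19 : ℝ) / 10) ^ (e + 2) := by positivity
      nlinarith
  obtain ⟨e', rfl⟩ : ∃ e', e = e' + 1 := ⟨e - 1, by omega⟩
  have h2 : (1 : ℝ) ≤ ((11 : ℝ) / 10) ^ (e' + 1) := one_le_pow₀ (by norm_num)
  have h3 := h1 e'
  linarith

lemma prod_le {n R : ℕ} (G : SimpleGraph (Fin n)) :
    ∏ Q ∈ cxs R G, (1 + 2 * ((11 : ℝ) / 10) ^ (eIn G Q - #Q)) ≤ ((19 : ℝ) / 10) ^ ZR R G := by
  unfold ZR
  rw [← Finset.prod_pow_eq_pow_sum]
  refine Finset.prod_le_prod (fun Q _ => by positivity) fun Q hQ => ?_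
  have h1 : #Q + 1 ≤ eIn G Q := by
    classical
    unfold cxs at hQ
    exact (mem_filter.1 hQ).2.2.1
  have h2 : eIn G Q + 1 - #Q = (eIn G Q - #Q) + 1 := by omega
  rw [h2]
  exact pow_aux _ (by omega)

lemma ZZ_ge {n R : ℕ} (G : SimpleGraph (Fin n)) (h : ¬ ∀ Q, IsComp G Q → eIn G Q ≤ #Q + R) :
    R + 2 ≤ ZZ G := by
  push Not at h
  obtain ⟨Q, hQ, h1⟩ := h
  have h2 : zq G Q ≤ ZZ G := by
    unfold ZZ
    exact Finset.single_le_sum (f := fun Q => zq G Q) (fun _ _ => Nat.zero_le _) (mem_univ Q)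
  have h3 : zq G Q = eIn G Q + 1 - #Q := by
    unfold zq
    rw [if_pos ⟨hQ, by omega⟩]
  omega

/-- The estimate for fixed `R`. -/
lemma main_est (hTAI : Pool.Agent.Helper26.AL.StmtTAI) (hEQC : Pool.Agent.Helper26.AL.StmtEQC)
    (hUPE : Pool.Agent.Helper26.AL.StmtUPE) (hUPP : Pool.Agent.Helper26.AF.StmtUPP)
    (g : ℕ) (l : ℝ) : ∃ C : ℝ, 0 < C ∧ ∀ R : ℕ, ∀ᶠ n : ℕ in atTop,
      |Pr (pc l n) (fun G : SimpleGraph (Fin n) => Embeds G g)
        - ∑ r ∈ range (R + 1), TN n (pc l n) g r| ≤ C * (10 / 11) ^ R := by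
  obtain ⟨C₁, hC₁, h1⟩ := hUPE l (19 / 10) (by norm_num) (by norm_num)
  obtain ⟨C₂, hC₂, h2⟩ := hUPP l (19 / 10) (by norm_num) (by norm_num)
  refine ⟨C₁ + C₂, by positivity, fun R => ?_⟩
  filter_upwards [h1 R, h2 (R + 2), Pool.Agent.Helper69.AF.pc_event' l] with n hn1 hn2 hp
  have hp0 := hp.1.le
  have hp1 := hp.2.le
  have h3 : |Pr (pc l n) (fun G : SimpleGraph (Fin n) => Embeds G g) -
      Pr (pc l n) (fun G : SimpleGraph (Fin n) => Embeds (gi G ((cxs R G).sup id)) g)| ≤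
      C₂ / (19 / 10) ^ (R + 2) := by
    refine le_trans (Pr_sub_le hp0 hp1 _ _ (fun G : SimpleGraph (Fin n) => R + 2 ≤ ZZ G) ?_) hn2
    intro G hG
    have h4 : ∀ Q, IsComp G Q → eIn G Q ≤ #Q + R := by
      by_contra h5
      exact hG (ZZ_ge G h5)
    exact (hEQC n R g G h4).symm
  have h4 := hTAI n R g (pc l n) (11 / 10) hp.1 hp.2 (by norm_num)
  have h5 : EE (pc l n) (fun G : SimpleGraph (Fin n) =>
        ∏ Q ∈ cxs R G, (1 + 2 * ((11 : ℝ) / 10) ^ (eIn G Q - #Q))) ≤ C₁ :=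
    le_trans (EE_mono hp0 hp1 fun G => prod_le G) hn1
  have h6 : 1 / ((11 : ℝ) / 10) ^ R = (10 / 11) ^ R := by
    rw [one_div, ← inv_pow]
    norm_num
  have h7 : C₂ / (19 / 10) ^ (R + 2) ≤ C₂ * (10 / 11) ^ R := by
    rw [div_eq_mul_inv]
    refine mul_le_mul_of_nonneg_left ?_ hC₂.le
    rw [← h6, one_div]
    refine inv_anti₀ (by positivity) ?_
    refine le_trans (pow_le_pow_left₀ (by norm_num) (by norm_num : (11 : ℝ) / 10 ≤ 19 / 10) R) ?_
    exact pow_le_pow_right₀ (by norm_num) (by omega)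
  have h8 : |Pr (pc l n) (fun G : SimpleGraph (Fin n) => Embeds (gi G ((cxs R G).sup id)) g)
      - ∑ r ∈ range (R + 1), TN n (pc l n) g r| ≤ C₁ * (10 / 11) ^ R := by
    refine le_trans h4 ?_
    rw [h6, mul_comm]
    exact mul_le_mul_of_nonneg_right h5 (by positivity)
  have h9 := abs_sub_le (Pr (pc l n) (fun G : SimpleGraph (Fin n) => Embeds G g))
    (Pr (pc l n) (fun G : SimpleGraph (Fin n) => Embeds (gi G ((cxs R G).sup id)) g))
    (∑ r ∈ range (R + 1), TN n (pc l n) g r)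
  rw [add_mul]
  linarith

/-- Abstract conclusion. -/
lemma concl (P : ℕ → ℝ) (T : ℕ → ℕ → ℝ) (a : ℕ → ℝ) (C : ℝ) (hC : 0 < C)
    (h : ∀ R : ℕ, ∀ᶠ n : ℕ in atTop, |P n - ∑ r ∈ range (R + 1), T n r| ≤ C * (10 / 11) ^ R)
    (hT : ∀ r, Tendsto (fun n => T n r) atTop (𝓝 (a r))) :
    Summable (fun r => |a r|) ∧ Tendsto P atTop (𝓝 (∑' r, a r)) := by
  have hS : ∀ R : ℕ, Tendsto (fun n => ∑ r ∈ range (R + 1), T n r) atTop
      (𝓝 (∑ r ∈ range (R + 1), a r)) := fun R => tendsto_finsetSum _ fun r _ => hT r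
  have h1 : ∀ (R : ℕ) (ε : ℝ), 0 < ε → ∀ᶠ n : ℕ in atTop,
      |P n - ∑ r ∈ range (R + 1), a r| ≤ C * (10 / 11) ^ R + ε := by
    intro R ε hε
    have h2 := (Metric.tendsto_atTop'.1 (hS R)) ε hε
    have h3 : ∀ᶠ n : ℕ in atTop, dist (∑ r ∈ range (R + 1), T n r)
        (∑ r ∈ range (R + 1), a r) < ε := by
      obtain ⟨N, hN⟩ := h2
      filter_upwards [eventually_gt_atTop N] with n hn
      exact hN n hn
    filter_upwards [h R, h3] with n hn1 hn2
    rw [Real.dist_eq] at hn2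
    have := abs_sub_le (P n) (∑ r ∈ range (R + 1), T n r) (∑ r ∈ range (R + 1), a r)
    linarith
  have h2 : ∀ R : ℕ, |a (R + 1)| ≤ 2 * C * (10 / 11) ^ R := by
    intro R
    refine le_of_forall_pos_le_add fun ε hε => ?_
    obtain ⟨n, hn1, hn2⟩ := ((h1 R (ε / 2) (by positivity)).and
      (h1 (R + 1) (ε / 2) (by positivity))).exists
    have h3 : a (R + 1) = (P n - ∑ r ∈ range (R + 1), a r) -
        (P n - ∑ r ∈ range (R + 1 + 1), a r) := by
      rw [Finset.sum_range_succ _ (R + 1)]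
      ring
    have h4 : |a (R + 1)| ≤ |P n - ∑ r ∈ range (R + 1), a r| +
        |P n - ∑ r ∈ range (R + 1 + 1), a r| := by
      rw [h3]
      exact abs_sub _ _
    have h5 : C * ((10 : ℝ) / 11) ^ (R + 1) ≤ C * (10 / 11) ^ R := by
      refine mul_le_mul_of_nonneg_left ?_ hC.le
      exact pow_le_pow_of_le_one (by norm_num) (by norm_num) (by omega)
    linarith
  have hsum : Summable (fun r => |a r|) := by
    rw [← summable_nat_add_iff 1]
    refine Summable.of_nonneg_of_le (fun _ => abs_nonneg _) h2 ?_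
    exact (summable_geometric_of_lt_one (by norm_num) (by norm_num)).mul_left _
  refine ⟨hsum, ?_⟩
  have hsa : Summable a := hsum.of_abs
  have hlim : Tendsto (fun R => ∑ r ∈ range (R + 1), a r) atTop (𝓝 (∑' r, a r)) :=
    (hsa.hasSum.tendsto_sum_nat).comp (tendsto_add_atTop_nat 1)
  have hgeo : Tendsto (fun R : ℕ => C * ((10 : ℝ) / 11) ^ R) atTop (𝓝 0) := by
    have := (tendsto_pow_atTop_nhds_zero_of_lt_one (r := (10 : ℝ) / 11) (by norm_num)
      (by norm_num)).const_mul C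
    simpa using this
  rw [Metric.tendsto_atTop]
  intro ε hε
  have h3 : ∀ᶠ R : ℕ in atTop, |∑ r ∈ range (R + 1), a r - ∑' r, a r| < ε / 3 := by
    have := (Metric.tendsto_atTop.1 hlim) (ε / 3) (by positivity)
    obtain ⟨N, hN⟩ := this
    filter_upwards [eventually_ge_atTop N] with R hR
    have := hN R hR
    rwa [Real.dist_eq] at this
  have h4 : ∀ᶠ R : ℕ in atTop, C * ((10 : ℝ) / 11) ^ R < ε / 3 :=
    hgeo.eventually_lt_const (by positivity)
  obtain ⟨R, hR1, hR2⟩ := (h3.and h4).exists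
  obtain ⟨N, hN⟩ := Filter.eventually_atTop.1 (h1 R (ε / 3) (by positivity))
  refine ⟨N, fun n hn => ?_⟩
  have h5 := hN n hn
  rw [Real.dist_eq]
  have := abs_sub_le (P n) (∑ r ∈ range (R + 1), a r) (∑' r, a r)
  linarith

/-- PACKET LIP. -/
theorem goalLIP (hTLM : Pool.Agent.Helper26.AL.StmtTLM) (hTAI : Pool.Agent.Helper26.AL.StmtTAI)
    (hEQC : Pool.Agent.Helper26.AL.StmtEQC) (hUPE : Pool.Agent.Helper26.AL.StmtUPE)
    (hUPP : Pool.Agent.Helper26.AF.StmtUPP) (hJCO : Pool.Agent.Helper26.AL.StmtJCO) :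
    Pool.Agent.Helper26.AL.StmtLIP := by
  intro g l
  obtain ⟨C, hC, h1⟩ := main_est hTAI hEQC hUPE hUPP g l
  obtain ⟨h2, h3⟩ := concl
    (fun n : ℕ => Pr (pc l n) (fun G : SimpleGraph (Fin n) => Embeds G g))
    (fun n r => TN n (pc l n) g r) (fun r => bb g r * JJ l r) C hC h1 (fun r => hTLM g l r)
  refine ⟨?_, h3⟩
  refine h2.congr fun r => ?_
  rw [abs_mul, abs_of_nonneg ((hJCO r).2.1 l)]

end Pool.Agent.Helper47.AL
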