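import Mathlib
import Pool.Agent.Helper26.AL.GoalsC

/-!
Project AL, packet GST (local limit from Stirling).
-/

namespace Pool.Agent.Helper47.AL

open Finset Filter Topology Pool.Agent.Helper26.AF Pool.Agent.Helper26.AL

lemma gst_bound {z : ℝ} (h0 : 0 ≤ z) (h1 : z ≤ 1 / 2) :
    |-(1 - z) * Real.log (1 - z) - z + z ^ 2 / 2| ≤ 3 * z ^ 3 := by
  have h2 := Real.abs_log_sub_add_sum_range_le (x := z) (by rw [abs_of_nonneg h0]; linarith) 2
  rw [abs_of_nonneg h0, Finset.sum_range_succ, Finset.sum_range_one] at h2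
  norm_num at h2
  have h3 : z ^ 3 / (1 - z) ≤ 2 * z ^ 3 := by
    rw [div_le_iff₀ (by linarith)]
    have : 0 ≤ z ^ 3 := by positivity
    nlinarith
  have h4 := le_trans h2 h3
  rw [abs_le] at h4 ⊢
  have h5 : 0 ≤ z ^ 3 := by positivity
  have h6 : -(1 - z) * Real.log (1 - z) - z + z ^ 2 / 2 =
      -(1 - z) * (z + z ^ 2 / 2 + Real.log (1 - z)) - z ^ 3 / 2 := by ring
  rw [h6]
  have h7 : 0 ≤ 1 - z := by linarith
  constructor
  · nlinarith [mul_le_mul_of_nonneg_left h4.2 h7]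
  · nlinarith [mul_le_mul_of_nonneg_left h4.1 h7]

lemma gst_id {k m s : ℕ} (hm : 1 ≤ m) (hk : k = m + s) :
    (k : ℝ) ^ m * Real.exp (-(k : ℝ)) * Real.sqrt k / (m.factorial : ℝ) =
    (Stirling.stirlingSeq m)⁻¹ * Real.sqrt ((k : ℝ) / (2 * m)) *
      Real.exp ((m : ℝ) * Real.log ((k : ℝ) / m) - s) := by
  have hm0 : (0 : ℝ) < m := by exact_mod_cast hm
  have hk0 : (0 : ℝ) < k := by
    have : 0 < k := by omega
    exact_mod_cast this
  have h1 : Real.exp ((m : ℝ) * Real.log ((k : ℝ) / m) - s) =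
      ((k : ℝ) / m) ^ m * Real.exp (-(s : ℝ)) := by
    rw [sub_eq_add_neg, Real.exp_add, Real.exp_nat_mul, Real.exp_log (by positivity)]
  have h2 : Real.exp (-(s : ℝ)) = Real.exp 1 ^ m * Real.exp (-(k : ℝ)) := by
    rw [← Real.exp_nat_mul, ← Real.exp_add]
    congr 1
    rw [hk]
    push_cast
    ring
  rw [h1, h2]
  unfold Stirling.stirlingSeq
  rw [Real.sqrt_div hk0.le]
  have h3 : (m.factorial : ℝ) ≠ 0 := by positivity
  have h4 : Real.sqrt (2 * (m : ℝ)) ≠ 0 := by positivity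
  have h5 : Real.exp 1 ≠ 0 := (Real.exp_pos 1).ne'
  have h6 : (m : ℝ) ^ m ≠ 0 := by positivity
  rw [div_pow, div_pow]
  field_simp

/-- PACKET GST. -/
theorem goalGST : Pool.Agent.Helper26.AL.StmtGST := by
  intro κ y hy hκ
  have hk : Tendsto (fun k : ℕ => (k : ℝ)) atTop atTop := tendsto_natCast_atTop_atTop
  have hsq : Tendsto (fun k : ℕ => Real.sqrt (k : ℝ)) atTop atTop :=
    Real.tendsto_sqrt_atTop.comp hk
  have hz : Tendsto (fun k : ℕ => (κ k : ℝ) / k) atTop (𝓝 0) := by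
    have h1 := hκ.div_atTop hsq
    refine h1.congr' ?_
    filter_upwards [eventually_ge_atTop 1] with k hk1
    have : (0 : ℝ) ≤ k := Nat.cast_nonneg k
    rw [div_div, Real.mul_self_sqrt this]
  have hkz : Tendsto (fun k : ℕ => (k : ℝ) * ((κ k : ℝ) / k) ^ 2) atTop (𝓝 (y ^ 2)) := by
    refine (hκ.pow 2).congr' ?_
    filter_upwards [eventually_ge_atTop 1] with k hk1
    have h0 : (0 : ℝ) < k := by exact_mod_cast hk1
    rw [div_pow, Real.sq_sqrt h0.le, div_pow]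
    field_simp
  have hkz3 : Tendsto (fun k : ℕ => 3 * ((k : ℝ) * ((κ k : ℝ) / k) ^ 2 * ((κ k : ℝ) / k)))
      atTop (𝓝 0) := by
    have := (hkz.mul hz).const_mul 3
    simpa using this
  have hhalf : ∀ᶠ k : ℕ in atTop, (κ k : ℝ) / k < 1 / 2 :=
    hz.eventually_lt_const (by norm_num)
  -- the exponent
  have hE0 : Tendsto (fun k : ℕ => (k : ℝ) * (-(1 - (κ k : ℝ) / k) *
      Real.log (1 - (κ k : ℝ) / k) - (κ k : ℝ) / k + ((κ k : ℝ) / k) ^ 2 / 2)) atTop (𝓝 0) := by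
    refine squeeze_zero_norm' ?_ hkz3
    filter_upwards [hhalf] with k hk1
    have h0 : (0 : ℝ) ≤ k := Nat.cast_nonneg k
    have h1 := gst_bound (z := (κ k : ℝ) / k) (by positivity) hk1.le
    rw [Real.norm_eq_abs, abs_mul, abs_of_nonneg h0]
    calc (k : ℝ) * _ ≤ k * (3 * ((κ k : ℝ) / k) ^ 3) := mul_le_mul_of_nonneg_left h1 h0
      _ = _ := by ring
  have hE : Tendsto (fun k : ℕ => (k : ℝ) * (-(1 - (κ k : ℝ) / k) *
      Real.log (1 - (κ k : ℝ) / k) - (κ k : ℝ) / k)) atTop (𝓝 (-(y ^ 2) / 2)) := by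
    have h1 := hE0.sub (hkz.div_const 2)
    have h2 : (0 : ℝ) - y ^ 2 / 2 = -(y ^ 2) / 2 := by ring
    rw [h2] at h1
    refine h1.congr fun k => ?_
    ring
  have hmev : ∀ᶠ k : ℕ in atTop, κ k ≤ k ∧ 1 ≤ k - κ k ∧
      ((k - κ k : ℕ) : ℝ) = k * (1 - (κ k : ℝ) / k) := by
    filter_upwards [hhalf, eventually_ge_atTop 2] with k hk1 hk2
    have h0 : (0 : ℝ) < k := by
      have : 0 < k := by omega
      exact_mod_cast this
    rw [div_lt_iff₀ h0] at hk1
    have h1 : (2 * κ k : ℝ) < k := by linarith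
    have h2 : 2 * κ k < k := by exact_mod_cast h1
    refine ⟨by omega, by omega, ?_⟩
    rw [Nat.cast_sub (by omega)]
    field_simp
  have hm : Tendsto (fun k : ℕ => k - κ k) atTop atTop := by
    rw [← tendsto_natCast_atTop_iff (R := ℝ)]
    have h1 : Tendsto (fun k : ℕ => (k : ℝ) * (1 - (κ k : ℝ) / k)) atTop atTop := by
      refine hk.atTop_mul_pos (C := 1) one_pos ?_
      simpa using hz.const_sub 1
    refine h1.congr' ?_
    filter_upwards [hmev] with k hk1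
    exact hk1.2.2.symm
  have hst : Tendsto (fun k : ℕ => (Stirling.stirlingSeq (k - κ k))⁻¹) atTop
      (𝓝 (Real.sqrt Real.pi)⁻¹) :=
    (Stirling.tendsto_stirlingSeq_sqrt_pi.comp hm).inv₀ (by positivity)
  have hroot : Tendsto (fun k : ℕ => Real.sqrt ((k : ℝ) / (2 * ((k - κ k : ℕ) : ℝ)))) atTop
      (𝓝 (Real.sqrt (1 / 2))) := by
    refine (Real.continuous_sqrt.tendsto _).comp ?_
    have h1 : Tendsto (fun k : ℕ => 1 / (2 * (1 - (κ k : ℝ) / k))) atTop
        (𝓝 (1 / (2 * (1 - 0)))) := by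
      refine tendsto_const_nhds.div ((hz.const_sub 1).const_mul 2) (by norm_num)
    rw [sub_zero, mul_one] at h1
    refine h1.congr' ?_
    filter_upwards [hmev, eventually_ge_atTop 1] with k hk1 hk2
    have h0 : (0 : ℝ) < k := by exact_mod_cast hk2
    rw [hk1.2.2]
    have h3 : (0 : ℝ) < k * (1 - (κ k : ℝ) / k) := by
      rw [← hk1.2.2]
      exact_mod_cast hk1.2.1
    have h4 : (1 - (κ k : ℝ) / k) ≠ 0 := by
      intro h5
      rw [h5, mul_zero] at h3
      exact lt_irrefl _ h3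
    rw [div_eq_div_iff (by positivity) (by positivity)]
    ring
  have hfin := (hst.mul hroot).mul ((Real.continuous_exp.tendsto _).comp hE)
  have hval : (Real.sqrt Real.pi)⁻¹ * Real.sqrt (1 / 2) * Real.exp (-(y ^ 2) / 2) =
      Real.exp (-(y ^ 2) / 2) / Real.sqrt (2 * Real.pi) := by
    rw [Real.sqrt_mul (by norm_num), Real.sqrt_div (by norm_num), Real.sqrt_one]
    field_simp
  rw [hval] at hfin
  refine hfin.congr' ?_
  filter_upwards [hmev, eventually_ge_atTop 1] with k hk1 hk2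
  have h0 : (0 : ℝ) < k := by exact_mod_cast hk2
  rw [gst_id (m := k - κ k) (s := κ k) hk1.2.1 (by omega)]
  have hm0 : (0 : ℝ) < ((k - κ k : ℕ) : ℝ) := by exact_mod_cast hk1.2.1
  congr 1
  simp only [Function.comp_apply]
  congr 1
  have h3 : (1 - (κ k : ℝ) / k) = ((k - κ k : ℕ) : ℝ) / k := by
    rw [hk1.2.2]
    field_simp
  have h4 : Real.log ((k : ℝ) / ((k - κ k : ℕ) : ℝ)) = - Real.log (1 - (κ k : ℝ) / k) := by
    rw [h3, ← Real.log_inv, inv_div]
  rw [h4, hk1.2.2]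
  field_simp

end Pool.Agent.Helper47.AL
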